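import Pool.Agent.Lib.MP_d55432_al.G2.Iface2

/-!
# G2, module EXIST: reduction of the existence statement to three kinds of rays
-/

namespace Pool.Agent.Lib.MP_d55432_al.G2.H88

open Matrix LieAlgebra Pool.Agent.Lib.MP_d55432_al.G2

attribute [local instance 100] LieRing.ofAssociativeRing

variable {K : Type*} [Field K]

theorem Cj.symm {X Y : M7 K} (h : Cj X Y) : Cj Y X := by
  obtain ⟨g, k, H, rfl⟩ := h
  refine ⟨k, g, H.symm, ?_⟩
  calc X = (k * g) * X * (k * g) := by rw [H.2.1, Matrix.one_mul, Matrix.mul_one]
    _ = _ := by simp only [Matrix.mul_assoc]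

theorem Cj.trans {X Y Z : M7 K} (h : Cj X Y) (h' : Cj Y Z) : Cj X Z := by
  obtain ⟨g, k, H, rfl⟩ := h
  obtain ⟨g', k', H', rfl⟩ := h'
  exact ⟨g' * g, k * k', H'.mul H, by simp only [Matrix.mul_assoc]⟩

theorem Cj.smul {X Y : M7 K} (s : K) (h : Cj X Y) : Cj (s • X) (s • Y) := by
  obtain ⟨g, k, H, rfl⟩ := h
  exact ⟨g, k, H, by rw [Matrix.mul_smul, Matrix.smul_mul]⟩

theorem Cj.refl (X : M7 K) : Cj X X := ⟨1, 1, IsG.one, by rw [Matrix.one_mul, Matrix.mul_one]⟩

theorem smul_TT (c l m : K) : c • TT l m = TT (c * l) (c * m) := by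
  ext i j
  fin_cases i <;> fin_cases j <;> simp [TT] <;> ring

/-- `HasEx` depends only on the ray. -/
theorem HasEx.congr {l m l' m' c : K} (hc : c ≠ 0) (h : Cj (TT l m) (c • TT l' m'))
    (hR : Reg l m → Reg l' m') (H : HasEx K l' m') : HasEx K l m := by
  have key : ∀ Y : M7 K, (∃ s : K, s ≠ 0 ∧ Cj (s • TT l' m') Y) →
      ∃ s : K, s ≠ 0 ∧ Cj (s • TT l m) Y := by
    rintro Y ⟨s, hs, hY⟩
    refine ⟨s * c⁻¹, mul_ne_zero hs (inv_ne_zero hc), Cj.trans (Cj.smul (s * c⁻¹) h) ?_⟩
    rw [smul_smul, mul_assoc, inv_mul_cancel₀ hc, mul_one]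
    exact hY
  have key' : ∀ Y : M7 K, (∃ s : K, s ≠ 0 ∧ Cj (s • TT l m) Y) →
      ∃ s : K, s ≠ 0 ∧ Cj (s • TT l' m') Y := by
    rintro Y ⟨s, hs, hY⟩
    refine ⟨s * c, mul_ne_zero hs hc, Cj.trans ?_ hY⟩
    have := Cj.smul s (Cj.symm h)
    rwa [smul_smul] at this
  obtain ⟨n, d, Ψ, h1, h2, ⟨a, y, h3⟩, h4⟩ := H
  refine ⟨n, d, Ψ, h1, ?_, ⟨a, y, key _ h3⟩, ?_⟩
  · intro g hg hY
    exact h2 g hg fun Y h => hY Y (key _ h)
  · intro r hr hr5
    exact h4 r hr fun h5 => hR (hr5 h5)

/-- EXIST: for every ray there is an equivariant map which takes all values in the closure. -/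
theorem exist (K : Type*) [Field K] (hA : EXA_S K) (hW : EXW2_S K) (hR : EXREG_S K)
    (hWe : WEYL_S K) : EXIST_S K := by
  intro l m hlm
  change HasEx K l m
  by_cases hreg : Reg l m
  · have hl : l ≠ 0 := by
      rintro rfl
      apply hreg
      ring
    have hm : Reg 1 (m / l) := by
      intro h0
      apply hreg
      have : l * m * (l + m) * (l - m) * (2 * l + m) * (l + 2 * m) =
          l ^ 6 * (1 * (m / l) * (1 + m / l) * (1 - m / l) * (2 * 1 + m / l) *
            (1 + 2 * (m / l))) := by
        field_simp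
      rw [this, h0, mul_zero]
    refine HasEx.congr hl ?_ (fun _ => hm) (hR _ hm)
    rw [smul_TT, mul_one, mul_div_cancel₀ m hl]
    exact Cj.refl _
  · have hprod : l * m * (l + m) * (l - m) * (2 * l + m) * (l + 2 * m) = 0 := not_not.mp hreg
    have hA' : HasEx K 1 1 := hA
    have hW' : HasEx K 1 (-1) := hW
    rcases mul_eq_zero.mp hprod with h | h
    · rcases mul_eq_zero.mp h with h | h
      · rcases mul_eq_zero.mp h with h | h
        · rcases mul_eq_zero.mp h with h | h
          · rcases mul_eq_zero.mp h with h | h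
            · subst h
              have hm : m ≠ 0 := hlm.resolve_left (fun h => h rfl)
              refine HasEx.congr hm ?_ (fun h => absurd h hreg) hW'
              rw [smul_TT]
              apply hWe <;> ring
            · subst h
              have hl : l ≠ 0 := hlm.resolve_right (fun h => h rfl)
              refine HasEx.congr hl ?_ (fun h => absurd h hreg) hW'
              rw [smul_TT]
              apply hWe <;> ring
          · have hm : m = -l := by linear_combination h
            subst hm
            have hl : l ≠ 0 := by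
              rintro rfl
              simp at hlm
            refine HasEx.congr hl ?_ (fun h => absurd h hreg) hW'
            rw [smul_TT]
            apply hWe <;> ring
        · have hm : m = l := by linear_combination -h
          subst hm
          have hl : m ≠ 0 := by
            rintro rfl
            simp at hlm
          refine HasEx.congr hl ?_ (fun h => absurd h hreg) hA'
          rw [smul_TT]
          apply hWe <;> ring
      · have hm : m = -2 * l := by linear_combination h
        subst hm
        have hl : l ≠ 0 := by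
          rintro rfl
          simp at hlm
        refine HasEx.congr hl ?_ (fun h => absurd h hreg) hA'
        rw [smul_TT]
        apply hWe <;> ring
    · have hl' : l = -2 * m := by linear_combination h
      subst hl'
      have hm : m ≠ 0 := by
        rintro rfl
        simp at hlm
      refine HasEx.congr hm ?_ (fun h => absurd h hreg) hA'
      rw [smul_TT]
      apply hWe <;> ring

end Pool.Agent.Lib.MP_d55432_al.G2.H88
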