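import Pool.Agent.Lib.MP_d55432_al.G2.Iface

/-!
# G2, module FLAG: transitivity on special flags
-/

namespace Pool.Agent.Lib.MP_d55432_al.G2.H88

open Matrix LieAlgebra Pool.Agent.Lib.MP_d55432_al.G2

attribute [local instance 100] LieRing.ofAssociativeRing

section ring

variable {A : Type*} [CommRing A]

/-- The linearised double commutator. -/
theorem br_lin (x y z : V7 A) : br x (br y z) + br y (br x z) =
    (4 * bb x y) • z - (2 * bb x z) • y - (2 * bb y z) • x := by
  funext i
  fin_cases i <;> simp [br, bb] <;> ring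

theorem qq_br (x y : V7 A) : qq (br x y) = bb x y ^ 2 - 4 * qq x * qq y := by
  simp [br, qq, bb]
  ring

theorem bb_br_left (x y z : V7 A) : bb (br x y) z = -bb y (br x z) := by
  simp [br, bb]
  ring

theorem bb_br_self (x y : V7 A) : bb (br x y) x = 0 := by
  simp [br, bb]
  ring

theorem bb_add_right (x y z : V7 A) : bb x (y + z) = bb x y + bb x z := by
  simp [bb]
  ring

theorem bb_sub_right (x y z : V7 A) : bb x (y - z) = bb x y - bb x z := by
  simp [bb]
  ring

theorem bb_smul_right (c : A) (x y : V7 A) : bb x (c • y) = c * bb x y := by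
  simp [bb]
  ring

theorem bb_smul_left (c : A) (x y : V7 A) : bb (c • x) y = c * bb x y := by
  simp [bb]
  ring

theorem qq_sub_smul (c : A) (x y : V7 A) : qq (x - c • y) = qq x - c * bb x y + c ^ 2 * qq y := by
  simp [qq, bb]
  ring

/-- The gradient of the form. -/
def JJ (x : V7 A) : V7 A := ![2 * x 0, x 4, x 5, x 6, x 1, x 2, x 3]

end ring

section field

variable {K : Type*} [Field K]

theorem bb_ee (x : V7 K) (i : Fin 7) : bb x (ee i) = JJ x i := by
  fin_cases i <;> simp [bb, ee, JJ]

theorem JJ_ne [CharZero K] (x : V7 K) (hx : x ≠ 0) : ∃ i, JJ x i ≠ 0 := by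
  by_contra hcon
  push Not at hcon
  apply hx
  have h0 := hcon 0
  have h1 := hcon 1
  have h2 := hcon 2
  have h3 := hcon 3
  have h4 := hcon 4
  have h5 := hcon 5
  have h6 := hcon 6
  simp [JJ] at h0 h1 h2 h3 h4 h5 h6
  funext i
  fin_cases i <;> simp [h0, h1, h2, h3, h4, h5, h6]

theorem exists_dual [CharZero K] (w y : V7 K) (hw : w ≠ 0) (hy : ∀ c : K, y ≠ c • w) :
    ∃ z : V7 K, bb w z = 1 ∧ bb y z = 0 := by
  obtain ⟨i, hi⟩ := JJ_ne w hw
  have hj : ∃ j, JJ w i * JJ y j - JJ w j * JJ y i ≠ 0 := by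
    by_contra hcon
    push Not at hcon
    apply hy (JJ y i / JJ w i)
    have h : ∀ j, JJ y j = JJ y i / JJ w i * JJ w j := by
      intro j
      field_simp
      linear_combination hcon j
    have h0 := h 0
    have h1 := h 1
    have h2 := h 2
    have h3 := h 3
    have h4 := h 4
    have h5 := h 5
    have h6 := h 6
    generalize JJ y i / JJ w i = c at h0 h1 h2 h3 h4 h5 h6
    simp only [JJ, cons_val_zero, cons_val_one, cons_val] at h0 h1 h2 h3 h4 h5 h6
    funext k
    fin_cases k
    · change y 0 = c * w 0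
      have : (2 : K) ≠ 0 := two_ne_zero
      apply mul_left_cancel₀ this
      linear_combination h0
    · exact h4
    · exact h5
    · exact h6
    · exact h1
    · exact h2
    · exact h3
  obtain ⟨j, hj⟩ := hj
  refine ⟨(JJ w i * JJ y j - JJ w j * JJ y i)⁻¹ • (JJ y j • ee i - JJ y i • ee j), ?_, ?_⟩
  · rw [bb_smul_right, bb_sub_right, bb_smul_right, bb_smul_right, bb_ee, bb_ee]
    field_simp
  · rw [bb_smul_right, bb_sub_right, bb_smul_right, bb_smul_right, bb_ee, bb_ee]
    ring

theorem br_U1U2 : br (ee 1 : V7 K) (ee 2) = (2 : K) • ee 6 := by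
  funext i
  fin_cases i <;> simp [br, ee]

/-- FLAG: transitivity on special flags. -/
theorem flag (K : Type*) [Field K] [CharZero K] (hF : FRAME_S K) : FLAG_S K := by
  intro w y hw hy hwy hw0 hyw
  have two0 : (2 : K) ≠ 0 := two_ne_zero
  -- `w` and `y` are orthogonal
  have hbb : bb w y = 0 := by
    have h := br_br w y
    have hz : br w (0 : V7 K) = 0 := by simpa using br_smul_right (0 : K) w w
    rw [hwy, hz, hw, mul_zero, zero_smul, zero_sub, eq_comm, neg_eq_zero, smul_eq_zero] at h
    rcases h with h | h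
    · exact (mul_eq_zero.mp h).resolve_left two0
    · exact absurd h hw0
  have hbb' : bb y w = 0 := by rw [bb_comm, hbb]
  obtain ⟨z₀, hz1, hz2⟩ := exists_dual w y hw0 hyw
  -- make it isotropic
  obtain ⟨w', hw1, hw2, hw3⟩ : ∃ w' : V7 K, bb w w' = 1 ∧ bb y w' = 0 ∧ qq w' = 0 := by
    refine ⟨z₀ - qq z₀ • w, ?_, ?_, ?_⟩
    · rw [bb_sub_right, bb_smul_right, bb_self, hw, hz1]; ring
    · rw [bb_sub_right, bb_smul_right, hbb', hz2]; ring
    · rw [qq_sub_smul, bb_comm, hz1, hw]; ring
  have hw1' : bb w' w = 1 := by rw [bb_comm, hw1]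
  have hw2' : bb w' y = 0 := by rw [bb_comm, hw2]
  obtain ⟨e, he⟩ : ∃ e : V7 K, e = br w w' := ⟨_, rfl⟩
  have hqe : qq e = 1 := by rw [he, qq_br, hw1, hw, hw3]; ring
  have hew : br e w = (2 : K) • w := by
    rw [he, br_swap w (br w w'), br_br, hw, hw1]
    module
  have hew' : br e w' = -((2 : K) • w') := by
    rw [he, br_swap w' (br w w'), br_swap w' w, ← neg_one_smul K (br w' w), br_smul_right,
      br_br, hw3, hw1']
    module
  have hwwy : br w (br w' y) = (4 : K) • y := by
    have h := br_lin w w' y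
    have hz : br w' (0 : V7 K) = 0 := by simpa using br_smul_right (0 : K) w' w'
    rw [hwy, hz, hw1, hbb, hw2', add_zero] at h
    rw [h]
    module
  have hey : br e y = -((2 : K) • y) := by
    have h := br_lin y w w'
    rw [hbb', hw2, hw1, ← he, br_swap w' y, ← neg_one_smul K (br w' y), br_smul_right, hwwy] at h
    rw [br_swap y e]
    have h2 : br y e = (2 : K) • y := by
      calc br y e = (br y e + (-1 : K) • (4 : K) • y) + (4 : K) • y := by module
        _ = _ := by rw [h]; module
    rw [h2]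
  -- orthogonality to `e`
  have hee : ∀ x : V7 K, ∀ s : K, s ^ 2 = 4 → br e x = s • x → bb e x = 0 := by
    intro x s hs hx
    have h := br_br e x
    rw [hx, br_smul_right, hx, smul_smul, ← pow_two, hs, hqe, mul_one] at h
    have h2 : (2 * bb e x) • e = 0 := by
      calc (2 * bb e x) • e = (4 : K) • x - ((4 : K) • x - (2 * bb e x) • e) := by module
        _ = 0 := by rw [← h, sub_self]
    rw [smul_eq_zero] at h2
    rcases h2 with h2 | h2
    · exact (mul_eq_zero.mp h2).resolve_left two0
    · rw [h2] at hqe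
      simp [qq] at hqe
  have hey' : br e y = (-2 : K) • y := by rw [hey]; module
  have hew'' : br e w' = (-2 : K) • w' := by rw [hew']; module
  have hbey := hee y (-2) (by norm_num) hey'
  have hbew' := hee w' (-2) (by norm_num) hew''
  obtain ⟨u₂, hu₂⟩ : ∃ u₂ : V7 K, u₂ = (2 : K)⁻¹ • br w' y := ⟨_, rfl⟩
  have heu₂ : br e u₂ = (2 : K) • u₂ := by
    have h := br_lin e w' y
    rw [hbew', hbey, hw2', hey', br_smul_right] at h
    have h2 : br e (br w' y) = (2 : K) • br w' y := by
      calc br e (br w' y) = (br e (br w' y) + (-2 : K) • br w' y) + (2 : K) • br w' y := by module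
        _ = _ := by rw [h]; module
    rw [hu₂, br_smul_right, h2]
    module
  have hwu₂ : br w u₂ = (2 : K) • y := by
    rw [hu₂, br_smul_right, hwwy, smul_smul]
    norm_num
  have hy0 : y ≠ 0 := by
    intro h
    exact hyw 0 (by rw [h, zero_smul])
  have hu₂w : ∀ c : K, w ≠ c • u₂ := by
    intro c hc
    have h1 : br w w = c • br w u₂ := by
      rw [← br_smul_right, ← hc]
    rw [br_self, hwu₂, smul_smul, eq_comm, smul_eq_zero] at h1
    rcases h1 with h1 | h1
    · have hc0 : c = 0 := (mul_eq_zero.mp h1).resolve_right two0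
      rw [hc0, zero_smul] at hc
      exact hw0 hc
    · exact hy0 h1
  have hu₂0 : u₂ ≠ 0 := by
    intro h
    rw [h] at hwu₂
    have hz : br w (0 : V7 K) = 0 := by simpa using br_smul_right (0 : K) w w
    rw [hz, eq_comm, smul_eq_zero] at hwu₂
    exact hwu₂.elim two0 hy0
  obtain ⟨z, hz3, hz4⟩ := exists_dual u₂ w hu₂0 hu₂w
  obtain ⟨v₂, hv₂⟩ : ∃ v₂ : V7 K, v₂ = (8 : K)⁻¹ • (br e (br e z) - (2 : K) • br e z) := ⟨_, rfl⟩
  have hev₂ : br e v₂ = -((2 : K) • v₂) := by
    have hb : bb e (br e z) = 0 := by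
      rw [bb_comm, bb_br_self]
    have h3 : br e (br e (br e z)) = (4 : K) • br e z := by
      rw [br_br e (br e z), hb, hqe]
      module
    have hs : ∀ x y : V7 K, br e (x - y) = br e x - br e y := by
      intro x y
      rw [sub_eq_add_neg, br_add_right, ← neg_one_smul K y, br_smul_right, neg_one_smul,
        ← sub_eq_add_neg]
    rw [hv₂, br_smul_right, hs, br_smul_right, h3]
    module
  have key : ∀ x : V7 K, br e x = (2 : K) • x → bb x v₂ = bb x z := by
    intro x hx
    have h1 : ∀ t : V7 K, bb x (br e t) = -(2 * bb x t) := by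
      intro t
      have := bb_br_left e x t
      rw [hx, bb_smul_left] at this
      linear_combination this
    rw [hv₂, bb_smul_right, bb_sub_right, bb_smul_right, h1, h1]
    ring
  obtain ⟨g, h, hg, -, h2, h3, -, -⟩ := hF e w u₂ w' v₂ hqe hew heu₂ hew' hev₂ hw1
    (by rw [key w hew, hz4])
    (by rw [hu₂, bb_smul_left, bb_br_self, mul_zero])
    (by rw [key u₂ heu₂, hz3])
  refine ⟨g, h, hg, h2, ?_⟩
  have h4 := hg.2.2 (ee 1) (ee 2)
  rw [br_U1U2, h2, h3, hwu₂, mulVec_smul] at h4
  exact smul_right_injective _ two0 h4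

end field

end Pool.Agent.Lib.MP_d55432_al.G2.H88
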